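import Mathlib

set_option autoImplicit false

namespace Pool.Agent.Results.MP_43f217_an.NotClosed

open Filter Topology

variable {X : Type} {E : X → Type} [∀ x, NormedAddCommGroup (E x)]
  [∀ x, InnerProductSpace ℂ (E x)]

/-- the section `f` lies in `l^2(X, mu; E)`. -/
def L2 (μ : X → ℝ) (f : ∀ x, E x) : Prop := Summable fun x => ‖f x‖ ^ 2 * μ x

/-- the squared norm of `l^2(X, mu; E)`. -/
noncomputable def nsq (μ : X → ℝ) (f : ∀ x, E x) : ℝ := ∑' x, ‖f x‖ ^ 2 * μ x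

/-- the formal operator. -/
noncomputable def M (b : X → X → ℝ) (μ : X → ℝ) (Φ : ∀ x y, E y ≃ₗᵢ[ℂ] E x)
    (W : ∀ x, E x →L[ℂ] E x) (f : ∀ x, E x) : ∀ x, E x :=
  fun x => ((μ x : ℂ))⁻¹ • (∑' y, (b x y : ℂ) • (f x - Φ x y (f y))) + W x (f x)

/-- the domain of the maximal restriction. -/
def Dom (b : X → X → ℝ) (μ : X → ℝ) (Φ : ∀ x y, E y ≃ₗᵢ[ℂ] E x)
    (W : ∀ x, E x →L[ℂ] E x) (f : ∀ x, E x) : Prop :=
  (∀ x, Summable fun y => b x y * ‖f y‖) ∧ L2 μ f ∧ L2 μ (M b μ Φ W f)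

/-- the maximal restriction is a closed operator (its graph is sequentially closed). -/
def MaxClosed (b : X → X → ℝ) (μ : X → ℝ) (Φ : ∀ x y, E y ≃ₗᵢ[ℂ] E x)
    (W : ∀ x, E x →L[ℂ] E x) : Prop :=
  ∀ (u : ℕ → ∀ x, E x) (f g : ∀ x, E x), (∀ k, Dom b μ Φ W (u k)) → L2 μ f → L2 μ g →
    Tendsto (fun k => nsq μ (u k - f)) atTop (𝓝 0) →
    Tendsto (fun k => nsq μ (M b μ Φ W (u k) - g)) atTop (𝓝 0) →
    Dom b μ Φ W f ∧ M b μ Φ W f = g

noncomputable def b0 (x y : ℕ) : ℝ :=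
  if x = 0 ∧ y ≠ 0 then (1 / 2) ^ y else if y = 0 ∧ x ≠ 0 then (1 / 2) ^ x else 0

noncomputable def μ0 (x : ℕ) : ℝ := (1 / 8) ^ x

noncomputable def W0 (x : ℕ) : ℂ →L[ℂ] ℂ := ((-(4 : ℝ) ^ x : ℝ) : ℂ) • ContinuousLinearMap.id ℂ ℂ

noncomputable def u0 (k : ℕ) (x : ℕ) : ℂ := if x = k + 1 then 2 ^ (k + 1) else 0

noncomputable def g0 (x : ℕ) : ℂ := if x = 0 then -1 else 0

lemma Mu (k : ℕ) : M (E := fun _ => ℂ) b0 μ0 (fun _ _ => LinearIsometryEquiv.refl ℂ ℂ) W0 (u0 k)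
    = g0 := by
  funext x
  unfold M
  by_cases hx : x = 0
  · subst hx
    rw [tsum_eq_single (k + 1)]
    · simp [b0, μ0, W0, u0, g0]
    · intro y hy
      simp [u0, hy]
  · rw [tsum_eq_single 0]
    · by_cases hk : x = k + 1
      · subst hk
        simp only [b0, μ0, W0, u0, g0]
        simp
        have h8 : (8 : ℂ) ^ (k + 1) = 2 ^ (k + 1) * 4 ^ (k + 1) := by
          rw [← mul_pow]; norm_num
        rw [h8]; ring
      · simp [u0, hk, g0, hx]
    · intro y hy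
      simp [b0, hx, hy]

lemma summable_single {f : ℕ → ℝ} (n : ℕ) (h : ∀ x, x ≠ n → f x = 0) : Summable f :=
  summable_of_ne_finset_zero (s := {n}) fun x hx => h x (by simpa using hx)

theorem result : ¬ ∀ (X : Type) [Countable X] (b : X → X → ℝ) (μ : X → ℝ) (E : X → Type)
    [∀ x, NormedAddCommGroup (E x)] [∀ x, InnerProductSpace ℂ (E x)] [∀ x, CompleteSpace (E x)]
    (Φ : ∀ x y, E y ≃ₗᵢ[ℂ] E x) (W : ∀ x, E x →L[ℂ] E x),
    (∀ x y, b x y = b y x) → (∀ x y, 0 ≤ b x y) → (∀ x, b x x = 0) → (∀ x, Summable (b x)) →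
    (∀ x, 0 < μ x) → (∀ x y, Φ y x = (Φ x y).symm) → (∀ x, IsSelfAdjoint (W x)) →
    MaxClosed b μ Φ W := by
  intro h
  have hg : L2 (E := fun _ => ℂ) μ0 g0 := summable_single 0 fun x hx => by simp [g0, hx]
  have key := h ℕ b0 μ0 (fun _ => ℂ) (fun _ _ => LinearIsometryEquiv.refl ℂ ℂ) W0 ?_ ?_ ?_ ?_ ?_
    (fun _ _ => rfl) ?_ u0 0 g0 ?_ ?_ hg ?_ ?_
  · have := congrFun key.2 0
    simp [M, g0] at this
  · intro x y
    unfold b0
    by_cases hx : x = 0 <;> by_cases hy : y = 0 <;> simp [hx, hy]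
  · intro x y
    unfold b0
    split_ifs <;> positivity
  · intro x
    simp [b0]
  · intro x
    by_cases hx : x = 0
    · subst hx
      refine Summable.of_nonneg_of_le (fun y => ?_) (fun y => ?_) summable_geometric_two
      · unfold b0; split_ifs <;> positivity
      · unfold b0; split_ifs with h1 h2
        · exact le_rfl
        · simp at h2
        · positivity
    · exact summable_single 0 fun y hy => by simp [b0, hx, hy]
  · intro x
    unfold μ0; positivity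
  · intro x
    unfold W0
    refine IsSelfAdjoint.smul ?_ ?_
    · exact Complex.conj_ofReal _
    · exact IsSelfAdjoint.one _
  · intro k
    refine ⟨fun x => summable_single (k + 1) fun y hy => by simp [u0, hy],
      summable_single (k + 1) fun y hy => by simp [u0, hy], ?_⟩
    rw [Mu]; exact hg
  · simp [L2, summable_zero]
  · have : ∀ k, nsq (E := fun _ => ℂ) μ0 (u0 k - 0) = (1 / 2) ^ (k + 1) := by
      intro k
      unfold nsq
      rw [tsum_eq_single (k + 1)]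
      · simp only [u0, μ0, sub_zero, if_true, norm_pow, Complex.norm_ofNat]
        rw [← pow_mul, mul_comm (k + 1) 2, pow_mul, ← mul_pow]; norm_num
      · intro y hy
        simp [u0, hy]
    simp only [this]
    exact (tendsto_pow_atTop_nhds_zero_of_lt_one (by norm_num) (by norm_num)).comp
      (tendsto_add_atTop_nat 1)
  · simp only [Mu]
    simp [nsq]

end Pool.Agent.Results.MP_43f217_an.NotClosed
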